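import Pool.Agent.H302R6.AutA

/-!
# Automorphisms of `A_n`, `n ≥ 7`, come from permutations
-/

set_option autoImplicit false
set_option linter.unusedSectionVars false

namespace Pool.Agent.H302R6

open Equiv Equiv.Perm

open scoped Nat

lemma fact_ineq : ∀ k m : ℕ, 1 ≤ k + m →
    2 * (3 ^ (k + 2) * (k + 2)! * m !) < 3 * (3 * k + 3 + m)! := by
  intro k
  induction k with
  | zero =>
    intro m hm
    induction m with
    | zero => omega
    | succ m ih =>
      by_cases h : m = 0
      · subst h; decide
      · have := ih (by omega)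
        rw [Nat.factorial_succ m, show 3 * 0 + 3 + (m + 1) = (3 * 0 + 3 + m) + 1 by ring,
          Nat.factorial_succ (3 * 0 + 3 + m)]
        have h1 : 2 * (3 ^ (0 + 2) * (0 + 2)! * ((m + 1) * m !))
            = (m + 1) * (2 * (3 ^ (0 + 2) * (0 + 2)! * m !)) := by ring
        have h2 : 3 * ((3 * 0 + 3 + m + 1) * (3 * 0 + 3 + m)!)
            = (3 * 0 + 3 + m + 1) * (3 * (3 * 0 + 3 + m)!) := by ring
        rw [h1, h2]
        exact Nat.mul_lt_mul_of_le_of_lt (by omega) this (by omega)
  | succ k ih =>
    intro m hm
    by_cases h : k + m = 0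
    · have h1 : k = 0 := by omega
      have h2 : m = 0 := by omega
      subst h1; subst h2
      decide
    · have := ih m (by omega)
      have e1 : 2 * (3 ^ (k + 1 + 2) * (k + 1 + 2)! * m !)
          = (3 * (k + 3)) * (2 * (3 ^ (k + 2) * (k + 2)! * m !)) := by
        rw [show k + 1 + 2 = (k + 2) + 1 by ring, Nat.factorial_succ (k + 2), pow_succ]
        ring
      have e2 : 3 * (3 * (k + 1) + 3 + m)!
          = ((3 * k + 6 + m) * (3 * k + 5 + m) * (3 * k + 4 + m)) * (3 * (3 * k + 3 + m)!) := by
        rw [show 3 * (k + 1) + 3 + m = (3 * k + 3 + m) + 1 + 1 + 1 by ring,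
          Nat.factorial_succ, Nat.factorial_succ, Nat.factorial_succ]
        ring
      rw [e1, e2]
      apply Nat.mul_lt_mul_of_le_of_lt _ this (by positivity)
      nlinarith [Nat.zero_le (k * m), Nat.zero_le m, Nat.zero_le k, Nat.zero_le (k * k),
        Nat.zero_le (m * m), Nat.zero_le (k * k * k), Nat.zero_le (k * k * m),
        Nat.zero_le (k * m * m), Nat.zero_le (m * m * m)]

variable {α : Type*} [Fintype α] [DecidableEq α]

lemma cent_le (x : alternatingGroup α) :
    Nat.card (Subgroup.centralizer {x}) ≤ Nat.card (Subgroup.centralizer {(x : Perm α)}) := by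
  classical
  apply Nat.card_le_card_of_injective
    (fun c : Subgroup.centralizer {x} =>
      (⟨((c : alternatingGroup α) : Perm α), by
        have hc := c.2
        rw [Subgroup.mem_centralizer_singleton_iff] at hc ⊢
        exact congrArg Subtype.val hc⟩ : Subgroup.centralizer {(x : Perm α)}))
  intro a b hab
  have := congrArg Subtype.val hab
  exact Subtype.ext (Subtype.ext this)

lemma cent_ge [Nontrivial α] (x : alternatingGroup α) :
    Nat.card (Subgroup.centralizer {(x : Perm α)}) ≤ 2 * Nat.card (Subgroup.centralizer {x}) := by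
  classical
  set C := Subgroup.centralizer {(x : Perm α)} with hC
  have h1 := Subgroup.card_mul_index ((alternatingGroup α).subgroupOf C)
  have h2 : ((alternatingGroup α).subgroupOf C).index ≤ 2 := by
    apply Nat.le_of_dvd (by norm_num)
    have := Subgroup.relIndex_dvd_index_of_normal (H := alternatingGroup α) (K := C)
    rw [alternatingGroup.index_eq_two] at this
    exact this
  have h3 : Nat.card ((alternatingGroup α).subgroupOf C) ≤ Nat.card (Subgroup.centralizer {x}) := by
    apply Nat.card_le_card_of_injective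
      (fun c : (alternatingGroup α).subgroupOf C =>
        (⟨⟨((c : C) : Perm α), c.2⟩, by
          have hc := (c : C).2
          rw [Subgroup.mem_centralizer_singleton_iff] at hc ⊢
          exact Subtype.ext hc⟩ : Subgroup.centralizer {x}))
    intro a b hab
    have := congrArg (fun z => ((z : alternatingGroup α) : Perm α)) (congrArg Subtype.val hab)
    exact Subtype.ext (Subtype.ext this)
  calc Nat.card C = _ := h1.symm
    _ ≤ Nat.card (Subgroup.centralizer {x}) * 2 := Nat.mul_le_mul h3 h2
    _ = _ := mul_comm _ _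

lemma cent_map (β : MulAut (alternatingGroup α)) (x : alternatingGroup α) :
    Nat.card (Subgroup.centralizer {x}) ≤ Nat.card (Subgroup.centralizer {β x}) := by
  classical
  apply Nat.card_le_card_of_injective
    (fun c : Subgroup.centralizer {x} =>
      (⟨β c, by
        have hc := c.2
        rw [Subgroup.mem_centralizer_singleton_iff] at hc ⊢
        rw [← map_mul, ← map_mul, hc]⟩ : Subgroup.centralizer {β x}))
  intro a b hab
  have := congrArg Subtype.val hab
  exact Subtype.ext (β.injective this)

/-- Automorphisms of `A_n`, `n ≥ 7`, map 3-cycles to 3-cycles. -/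
theorem three_to_three (h7 : 7 ≤ Fintype.card α) (β : MulAut (alternatingGroup α))
    (g : alternatingGroup α) (hg : (g : Perm α).IsThreeCycle) :
    ((β g : alternatingGroup α) : Perm α).IsThreeCycle := by
  classical
  haveI : Nontrivial α := by
    rw [← Fintype.one_lt_card_iff_nontrivial]; omega
  have ho : orderOf ((β g : alternatingGroup α) : Perm α) = 3 := by
    rw [Subgroup.orderOf_coe, MulEquiv.orderOf_eq, ← Subgroup.orderOf_coe]
    exact hg.orderOf
  obtain ⟨k, hk⟩ := cycleType_prime_order (σ := ((β g : alternatingGroup α) : Perm α))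
    (by rw [ho]; exact Nat.prime_three)
  rw [ho] at hk
  rcases Nat.eq_zero_or_pos k with h0 | h0
  · rw [h0] at hk
    exact hk
  exfalso
  obtain ⟨j, rfl⟩ : ∃ j, k = j + 1 := ⟨k - 1, by omega⟩
  have hsum : 3 * (j + 2) ≤ Fintype.card α := by
    have h1 := sum_cycleType ((β g : alternatingGroup α) : Perm α)
    rw [hk, Multiset.sum_replicate, smul_eq_mul] at h1
    have h2 := Finset.card_le_univ ((β g : alternatingGroup α) : Perm α).support
    rw [← h1] at h2
    omega
  obtain ⟨m, hm⟩ : ∃ m, Fintype.card α = 3 * (j + 2) + m := ⟨Fintype.card α - 3 * (j + 2), by omega⟩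
  have c1 := nat_card_centralizer (g : Perm α)
  have c2 := nat_card_centralizer ((β g : alternatingGroup α) : Perm α)
  have hg' : (g : Perm α).cycleType = {3} := hg
  rw [hg'] at c1
  rw [hk] at c2
  rw [Multiset.sum_singleton, Multiset.prod_singleton, Multiset.toFinset_singleton,
    Finset.prod_singleton, Multiset.count_singleton_self, Nat.factorial_one, mul_one] at c1
  rw [Multiset.sum_replicate, Multiset.prod_replicate, Multiset.toFinset_replicate,
    if_neg (by omega), Finset.prod_singleton, Multiset.count_replicate_self, smul_eq_mul] at c2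
  have h1 := cent_ge g
  have h2 := cent_map β g
  have h3 := cent_le (β g)
  rw [c1] at h1
  rw [c2] at h3
  have h4 := fact_ineq j m (by omega)
  have e1 : Fintype.card α - 3 = 3 * j + 3 + m := by omega
  have e2 : Fintype.card α - (j + 1 + 1) * 3 = m := by omega
  rw [e1] at h1
  rw [e2] at h3
  have e3 : m ! * 3 ^ (j + 1 + 1) * (j + 1 + 1)! = 3 ^ (j + 2) * (j + 2)! * m ! := by ring
  rw [e3] at h3
  omega

/-- Automorphisms of `A_n`, `n ≥ 7`, come from permutations. -/
theorem aut_alt (h7 : 7 ≤ Fintype.card α) (β : MulAut (alternatingGroup α)) :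
    ∃ σ : Perm α, ∀ g : alternatingGroup α, ((β g : alternatingGroup α) : Perm α) = σ * g * σ⁻¹ :=
  exists_perm (by omega) β (three_to_three h7 β)

/-- Outer automorphisms of `A_n`, `n ≥ 7`, have order a power of two. -/
theorem out_alt (h7 : 7 ≤ Fintype.card α) (β : MulAut (alternatingGroup α)) :
    ∃ (k : ℕ) (s : alternatingGroup α), β ^ (2 ^ k) = MulAut.conj s := by
  obtain ⟨σ, hσ⟩ := aut_alt h7 β
  refine ⟨1, ⟨σ * σ, ?_⟩, ?_⟩
  · rw [mem_alternatingGroup, Perm.sign_mul]
    rcases Int.units_eq_one_or (Perm.sign σ) with h | h <;> rw [h] <;> decide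
  · apply MulEquiv.ext
    intro g
    apply Subtype.ext
    rw [pow_one, pow_two, MulAut.mul_apply, hσ, hσ, MulAut.conj_apply]
    rw [Subgroup.coe_mul, Subgroup.coe_mul, Subgroup.coe_inv]
    group

end Pool.Agent.H302R6
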