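import Mathlib
import Pool.Agent.H302R2.Average

/-!
# Abelian layers: the multiplicity of the trivial character decreases from `H` to `H ⊔ N`
-/

set_option autoImplicit false
set_option linter.unusedSectionVars false

namespace Pool.Agent.H302R6

open Pool.Agent.H302R2

universe u

/-- orthogonality on a finite commutative group -/
lemma exists_dual {A : Type*} [Group A] [Finite A] [DecidableEq A]
    (hc : ∀ a b : A, a * b = b * a) :
    ∃ (L : Type) (_ : Fintype L) (χ : L → A →* ℂˣ) (l₀ : L), χ l₀ = 1 ∧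
      (∀ l, χ l = 1 → l = l₀) ∧ ∀ a : A, ∑ l, (((χ l a)⁻¹ : ℂˣ) : ℂ) = if a = 1 then (Nat.card A : ℂ) else 0 := by
  classical
  let _ : CommGroup A := { (inferInstance : Group A) with mul_comm := hc }
  have : Fintype A := Fintype.ofFinite _
  have : Fintype (Additive A) := Fintype.ofFinite _
  let N := Fintype.card (AddChar (Additive A) ℂ)
  let ε : Fin N ≃ AddChar (Additive A) ℂ := (Fintype.equivFin _).symm
  let χ : AddChar (Additive A) ℂ → (A →* ℂˣ) := fun ψ => ψ.toMonoidHom.toHomUnits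
  have hχ : ∀ (ψ : AddChar (Additive A) ℂ) (e : A), ((χ ψ e : ℂˣ) : ℂ) = ψ (Additive.ofMul e) :=
    fun ψ e => rfl
  refine ⟨Fin N, inferInstance, fun i => χ (ε i), ε.symm 1, ?_, ?_, ?_⟩
  · ext e
    simp only [Equiv.apply_symm_apply, hχ]
    simp
  · intro l hl
    rw [Equiv.eq_symm_apply]
    ext e
    have h1 := hχ (ε l) (Additive.toMul e)
    have hl' : χ (ε l) = 1 := hl
    rw [hl'] at h1
    simpa using h1.symm
  · intro a
    rw [ε.sum_comp (fun ψ => (((χ ψ a)⁻¹ : ℂˣ) : ℂ))]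
    have h1 : ∀ ψ : AddChar (Additive A) ℂ, (((χ ψ a)⁻¹ : ℂˣ) : ℂ) = ψ (Additive.ofMul a⁻¹) := by
      intro ψ
      rw [Units.val_inv_eq_inv_val, hχ, ofMul_inv, AddChar.map_neg_eq_inv]
    rw [Finset.sum_congr rfl (fun ψ _ => h1 ψ), AddChar.sum_apply_eq_ite]
    by_cases ha : a = 1
    · subst ha
      have hc : Fintype.card (Additive A) = Fintype.card A := Fintype.card_congr Additive.toMul
      simp [hc]
    · have : Additive.ofMul a⁻¹ ≠ 0 := by
        intro h
        apply ha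
        have : a⁻¹ = 1 := h
        exact inv_eq_one.mp this
      rw [if_neg this, if_neg ha]

section semi

variable {G : Type u} [Group G]

/-- conjugation action of a subgroup on a normal subgroup -/
noncomputable def cj (N : Subgroup G) [N.Normal] (K : Subgroup G) : K →* MulAut N :=
  MulAut.conjNormal.comp K.subtype

lemma cj_coe (N : Subgroup G) [N.Normal] (K : Subgroup G) (k : K) (n : N) :
    ((cj N K k n : N) : G) = k * n * (k : G)⁻¹ := by
  simp [cj, MulAut.conjNormal_apply]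

/-- the multiplication map from the semidirect product -/
noncomputable def smap (N : Subgroup G) [N.Normal] (K : Subgroup G) :
    N ⋊[cj N K] K →* G where
  toFun e := (e.left : G) * (e.right : G)
  map_one' := by simp
  map_mul' a b := by
    rw [SemidirectProduct.mul_left, SemidirectProduct.mul_right, Subgroup.coe_mul,
      Subgroup.coe_mul, cj_coe]
    group

/-- an invariant character of `N`, extended trivially -/
noncomputable def schar (N : Subgroup G) [N.Normal] (K : Subgroup G) (l : N →* ℂˣ)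
    (hl : ∀ (k : K) (n : N), l (cj N K k n) = l n) : N ⋊[cj N K] K →* ℂˣ where
  toFun e := l e.left
  map_one' := by simp
  map_mul' a b := by
    rw [SemidirectProduct.mul_left, map_mul, hl]

lemma sum_semi [Finite G] {N : Subgroup G} [N.Normal] {K : Subgroup G} [Fintype N] [Fintype K]
    [Fintype (N ⋊[cj N K] K)] (f : N ⋊[cj N K] K → ℂ) :
    ∑ e, f e = ∑ k : K, ∑ n : N, f ⟨n, k⟩ := by
  rw [← (SemidirectProduct.equivProd (N := N) (G := K) (φ := cj N K)).symm.sum_comp,
    Fintype.sum_prod_type, Finset.sum_comm]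
  rfl

end semi

section main

variable {G : Type u} [Group G] [Finite G] {θ : G → ℂ}

lemma sum_subgroup [Fintype G] (U : Subgroup G) [DecidablePred (· ∈ U)] (f : G → ℂ) :
    ∑ᶠ x : U, f x = ∑ g : G, if g ∈ U then f g else 0 := by
  classical
  have : Fintype U := Fintype.ofFinite _
  rw [finsum_eq_sum_of_fintype, ← Finset.sum_filter]
  exact (Finset.sum_subtype (Finset.univ.filter fun g => g ∈ U) (by simp) (fun g => f g)).symm

/-- the inner sum vanishes at elements not fixing the character -/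
lemma inner_zero (hconj : ∀ g h : G, θ (h * g * h⁻¹) = θ g) (N : Subgroup G) [N.Normal]
    [Fintype N] (l : N →* ℂˣ) (h : G) {m : N} (hm : l (MulAut.conjNormal h m) ≠ l m) :
    ∑ n : N, θ (n * h) * (((l n)⁻¹ : ℂˣ) : ℂ) = 0 := by
  set S := ∑ n : N, θ (n * h) * (((l n)⁻¹ : ℂˣ) : ℂ) with hS
  have h1 : S = S * (((l m)⁻¹ * l (MulAut.conjNormal h m) : ℂˣ) : ℂ) := by
    conv_lhs => rw [hS]
    conv_rhs => rw [hS, ← Equiv.sum_comp ((Equiv.mulLeft m⁻¹).trans
      (Equiv.mulRight (MulAut.conjNormal h m))), Finset.sum_mul]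
    refine Finset.sum_congr rfl fun n _ => ?_
    have e1 : (((Equiv.mulLeft m⁻¹).trans (Equiv.mulRight (MulAut.conjNormal h m))) n : N)
        = m⁻¹ * n * MulAut.conjNormal h m := rfl
    rw [e1]
    have e2 : ((m⁻¹ * n * MulAut.conjNormal h m : N) : G) * h
        = (m : G)⁻¹ * ((n : G) * h) * ((m : G)⁻¹)⁻¹ := by
      simp only [Subgroup.coe_mul, Subgroup.coe_inv, MulAut.conjNormal_apply]
      group
    rw [e2, hconj, map_mul, map_mul, map_inv, mul_assoc, ← Units.val_mul]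
    congr 2
    rw [mul_comm (l m)⁻¹ (l n), mul_inv, mul_inv, inv_inv]
    have : ∀ a b c : ℂˣ, a⁻¹ * b * c⁻¹ * (b⁻¹ * c) = a⁻¹ := by
      intro a b c
      rw [mul_assoc, mul_assoc, mul_comm b, mul_assoc, mul_assoc, mul_comm c b]
      group
    rw [this]
  have h2 : (((l m)⁻¹ * l (MulAut.conjNormal h m) : ℂˣ) : ℂ) ≠ 1 := by
    intro h3
    apply hm
    have h4 : (l m)⁻¹ * l (MulAut.conjNormal h m) = 1 := Units.ext h3
    exact (inv_mul_eq_one.mp h4).symm
  have h3 : S * (1 - (((l m)⁻¹ * l (MulAut.conjNormal h m) : ℂˣ) : ℂ)) = 0 := by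
    rw [mul_sub, mul_one, ← h1, sub_self]
  rcases mul_eq_zero.mp h3 with h4 | h4
  · exact h4
  · exact absurd (sub_eq_zero.mp h4).symm h2

/-- the isotypic sum is a natural number -/
lemma isotypic_nat (hθ : IsHeilbronn θ) (N H : Subgroup G) [N.Normal] (l : N →* ℂˣ) :
    ∃ c : ℕ, ∑ᶠ h : H, ∑ᶠ n : N, θ (n * h) * (((l n)⁻¹ : ℂˣ) : ℂ) = c := by
  classical
  have : Fintype G := Fintype.ofFinite _
  have : Fintype N := Fintype.ofFinite _
  have : Fintype H := Fintype.ofFinite _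
  let K : Subgroup G :=
    { carrier := {h | h ∈ H ∧ ∀ n : N, l (MulAut.conjNormal h n) = l n}
      mul_mem' := by
        rintro a b ⟨ha, ha'⟩ ⟨hb, hb'⟩
        refine ⟨mul_mem ha hb, fun n => ?_⟩
        rw [map_mul, MulAut.mul_apply, ha', hb']
      one_mem' := ⟨one_mem _, fun n => by rw [map_one, MulAut.one_apply]⟩
      inv_mem' := by
        rintro a ⟨ha, ha'⟩
        refine ⟨inv_mem ha, fun n => ?_⟩
        rw [← ha' (MulAut.conjNormal a⁻¹ n), ← MulAut.mul_apply, ← map_mul, mul_inv_cancel,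
          map_one, MulAut.one_apply] }
  have hKmem : ∀ g, g ∈ K ↔ g ∈ H ∧ ∀ n : N, l (MulAut.conjNormal g n) = l n := fun g => Iff.rfl
  have : Fintype K := Fintype.ofFinite _
  have : Finite (N ⋊[cj N K] K) :=
    Finite.of_equiv _ (SemidirectProduct.equivProd (N := N) (G := K) (φ := cj N K)).symm
  have : Fintype (N ⋊[cj N K] K) := Fintype.ofFinite _
  obtain ⟨c, hc⟩ := hθ.mult_hom (smap N K) (schar N K l (fun k n => (k.2).2 n))
  refine ⟨c * Nat.card (N ⋊[cj N K] K), ?_⟩
  rw [Nat.cast_mul, ← hc, sum_semi]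
  have h1 : ∀ g : G, (∑ᶠ n : N, θ (n * g) * (((l n)⁻¹ : ℂˣ) : ℂ))
      = ∑ n : N, θ (n * g) * (((l n)⁻¹ : ℂˣ) : ℂ) := fun g => finsum_eq_sum_of_fintype _
  rw [sum_subgroup H (fun g => ∑ᶠ n : N, θ (n * g) * (((l n)⁻¹ : ℂˣ) : ℂ))]
  have h2 : (∑ k : K, ∑ n : N, θ (smap N K ⟨n, k⟩) *
      (((schar N K l (fun k n => (k.2).2 n) ⟨n, k⟩)⁻¹ : ℂˣ) : ℂ))
      = ∑ᶠ k : K, (fun g : G => ∑ᶠ n : N, θ (n * g) * (((l n)⁻¹ : ℂˣ) : ℂ)) k := by
    rw [finsum_eq_sum_of_fintype]
    refine Finset.sum_congr rfl fun k _ => ?_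
    simp only [h1]
    rfl
  rw [h2, sum_subgroup K (fun g => ∑ᶠ n : N, θ (n * g) * (((l n)⁻¹ : ℂˣ) : ℂ))]
  refine Finset.sum_congr rfl fun g _ => ?_
  by_cases hgH : g ∈ H
  · rw [if_pos hgH]
    by_cases hgK : g ∈ K
    · rw [if_pos hgK]
    · rw [if_neg hgK, h1]
      have : ∃ m : N, l (MulAut.conjNormal g m) ≠ l m := by
        by_contra hcon
        push Not at hcon
        exact hgK ⟨hgH, hcon⟩
      obtain ⟨m, hm⟩ := this
      exact inner_zero hθ.conj N l g hm
  · rw [if_neg hgH, if_neg (fun h => hgH ((hKmem g).mp h).1)]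

lemma sum_sup (N H : Subgroup G) [N.Normal] :
    ∑ᶠ h : H, ∑ᶠ n : N, θ (n * h) * (Nat.card (H ⊔ N : Subgroup G) : ℂ)
      = (Nat.card N : ℂ) * (Nat.card H : ℂ) * ∑ᶠ k : (H ⊔ N : Subgroup G), θ k := by
  classical
  have : Fintype G := Fintype.ofFinite _
  have : Fintype N := Fintype.ofFinite _
  have : Fintype H := Fintype.ofFinite _
  have : Fintype (H ⊔ N : Subgroup G) := Fintype.ofFinite _
  have : Finite (N ⋊[cj N H] H) :=
    Finite.of_equiv _ (SemidirectProduct.equivProd (N := N) (G := H) (φ := cj N H)).symm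
  have : Fintype (N ⋊[cj N H] H) := Fintype.ofFinite _
  let π : N ⋊[cj N H] H →* (H ⊔ N : Subgroup G) :=
    (smap N H).codRestrict (H ⊔ N : Subgroup G) (fun e => by
      change (e.left : G) * (e.right : G) ∈ (H ⊔ N : Subgroup G)
      exact mul_mem ((le_sup_right : N ≤ H ⊔ N) e.left.2) ((le_sup_left : H ≤ H ⊔ N) e.right.2))
  have hπ : Function.Surjective π := by
    rintro ⟨g, hg⟩
    have hg' : g ∈ ((N ⊔ H : Subgroup G) : Set G) := by
      rw [SetLike.mem_coe, sup_comm]; exact hg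
    rw [Subgroup.normal_mul, Set.mem_mul] at hg'
    obtain ⟨n, hn, h, hh, rfl⟩ := hg'
    exact ⟨⟨⟨n, hn⟩, ⟨h, hh⟩⟩, rfl⟩
  have h1 := sum_comp_surj π hπ (fun k => θ k)
  have h2 : Nat.card N * Nat.card H = Nat.card π.ker * Nat.card (H ⊔ N : Subgroup G) := by
    rw [← SemidirectProduct.card (φ := cj N H),
      ← Nat.card_congr (QuotientGroup.quotientKerEquivOfSurjective π hπ).toEquiv, mul_comm]
    rw [Subgroup.card_eq_card_quotient_mul_card_subgroup π.ker, mul_comm]
  rw [sum_semi] at h1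
  have h3 : ∀ (k : H) (n : N), θ (π ⟨n, k⟩) = θ (n * k) := fun k n => rfl
  simp only [h3] at h1
  have h4 : (∑ᶠ h : H, ∑ᶠ n : N, θ (n * h) * (Nat.card (H ⊔ N : Subgroup G) : ℂ))
      = (∑ h : H, ∑ n : N, θ (n * h)) * (Nat.card (H ⊔ N : Subgroup G) : ℂ) := by
    rw [finsum_eq_sum_of_fintype, Finset.sum_mul]
    refine Finset.sum_congr rfl fun h _ => ?_
    rw [finsum_eq_sum_of_fintype, Finset.sum_mul]
  rw [h4, h1, finsum_eq_sum_of_fintype, ← Nat.cast_mul, h2]
  push_cast
  ring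

/-- **Abelian layer.** -/
theorem ded_abel (hθ : IsHeilbronn θ) (M N H : Subgroup G) [M.Normal] [N.Normal]
    (hc : ∀ a ∈ N, ∀ b ∈ N, a * b * a⁻¹ * b⁻¹ ∈ M) (hMH : M ≤ H) {a b : ℕ}
    (ha : ∑ᶠ h : H, θ h = a * Nat.card H)
    (hb : ∑ᶠ h : (H ⊔ N : Subgroup G), θ h = b * Nat.card (H ⊔ N : Subgroup G)) : b ≤ a := by
  classical
  have : Fintype G := Fintype.ofFinite _
  have : Fintype N := Fintype.ofFinite _
  have : Fintype H := Fintype.ofFinite _
  set M' := M.subgroupOf N with hM'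
  have hcA : ∀ x y : N ⧸ M', x * y = y * x := by
    intro x y
    induction x using QuotientGroup.induction_on with | _ x => ?_
    induction y using QuotientGroup.induction_on with | _ y => ?_
    rw [← QuotientGroup.mk_mul, ← QuotientGroup.mk_mul, ← mul_inv_eq_one, ← QuotientGroup.mk_inv,
      ← QuotientGroup.mk_mul, QuotientGroup.eq_one_iff, hM', Subgroup.mem_subgroupOf]
    have := hc x x.2 y y.2
    have e : ((x * y * (y * x)⁻¹ : N) : G) = x * y * (x : G)⁻¹ * (y : G)⁻¹ := by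
      simp only [Subgroup.coe_mul, Subgroup.coe_inv, mul_inv_rev]
      group
    rw [e]; exact this
  obtain ⟨L, _, χ, l₀, hl₀, -, horth⟩ := exists_dual hcA
  let lam : L → N →* ℂˣ := fun l => (χ l).comp (QuotientGroup.mk' M')
  choose c hcl using fun l : L => isotypic_nat hθ N H (lam l)
  -- total
  have htot : ∑ l, (c l : ℂ) = (Nat.card N : ℂ) * ((a : ℂ) * Nat.card H) := by
    rw [Finset.sum_congr rfl (fun l _ => (hcl l).symm)]
    have h1 : ∀ l, (∑ᶠ h : H, ∑ᶠ n : N, θ (n * h) * (((lam l n)⁻¹ : ℂˣ) : ℂ))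
        = ∑ h : H, ∑ n : N, θ (n * h) * (((lam l n)⁻¹ : ℂˣ) : ℂ) := by
      intro l
      rw [finsum_eq_sum_of_fintype]
      exact Finset.sum_congr rfl fun h _ => finsum_eq_sum_of_fintype _
    rw [Finset.sum_congr rfl (fun l _ => h1 l), Finset.sum_comm]
    have h2 : ∀ h : H, ∑ l, ∑ n : N, θ (n * h) * (((lam l n)⁻¹ : ℂˣ) : ℂ)
        = ∑ n : N, θ (n * h) * (if (n : N ⧸ M') = 1 then (Nat.card (N ⧸ M') : ℂ) else 0) := by
      intro h
      rw [Finset.sum_comm]
      refine Finset.sum_congr rfl fun n _ => ?_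
      rw [← Finset.mul_sum, ← horth]
      rfl
    rw [Finset.sum_congr rfl (fun h _ => h2 h), Finset.sum_comm]
    have h3 : ∀ n : N, ∑ h : H, θ (n * h) * (if (n : N ⧸ M') = 1 then (Nat.card (N ⧸ M') : ℂ)
        else 0) = if (n : N ⧸ M') = 1 then (Nat.card (N ⧸ M') : ℂ) * ((a : ℂ) * Nat.card H)
          else 0 := by
      intro n
      by_cases hn : (n : N ⧸ M') = 1
      · rw [if_pos hn, if_pos hn, ← Finset.sum_mul, mul_comm]
        congr 1
        have hnM : (n : G) ∈ M := by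
          rw [QuotientGroup.eq_one_iff, hM', Subgroup.mem_subgroupOf] at hn
          exact hn
        rw [← ha, finsum_eq_sum_of_fintype]
        exact Equiv.sum_comp (Equiv.mulLeft (⟨n, hMH hnM⟩ : H)) (fun h : H => θ h)
      · rw [if_neg hn, if_neg hn]
        simp
    rw [Finset.sum_congr rfl (fun n _ => h3 n), ← Finset.sum_filter, Finset.sum_const,
      nsmul_eq_mul, ← mul_assoc]
    congr 1
    have h4 : (Finset.univ.filter fun n : N => (n : N ⧸ M') = 1).card = Nat.card M' := by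
      rw [← Fintype.card_subtype, ← Nat.card_eq_fintype_card]
      exact Nat.card_congr (Equiv.subtypeEquivRight fun n => QuotientGroup.eq_one_iff n)
    rw [h4, ← Nat.cast_mul, Subgroup.card_eq_card_quotient_mul_card_subgroup M', mul_comm]
  -- the trivial character
  have htriv : (c l₀ : ℂ) = (b : ℂ) * (Nat.card N * Nat.card H) := by
    have hK : (Nat.card (H ⊔ N : Subgroup G) : ℂ) ≠ 0 := by exact_mod_cast Nat.card_pos.ne'
    apply mul_right_cancel₀ hK
    have h5 := sum_sup (θ := θ) N H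
    rw [hb] at h5
    rw [← hcl l₀]
    have h6 : (∑ᶠ h : H, ∑ᶠ n : N, θ (n * h) * (((lam l₀ n)⁻¹ : ℂˣ) : ℂ))
        * (Nat.card (H ⊔ N : Subgroup G) : ℂ)
        = ∑ᶠ h : H, ∑ᶠ n : N, θ (n * h) * (Nat.card (H ⊔ N : Subgroup G) : ℂ) := by
      rw [finsum_eq_sum_of_fintype, finsum_eq_sum_of_fintype, Finset.sum_mul]
      refine Finset.sum_congr rfl fun h _ => ?_
      rw [finsum_eq_sum_of_fintype, finsum_eq_sum_of_fintype, Finset.sum_mul]
      refine Finset.sum_congr rfl fun n _ => ?_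
      simp [lam, hl₀]
    rw [h6, h5]
    ring
  have h7 : (c l₀ : ℕ) ≤ ∑ l, c l := Finset.single_le_sum (fun _ _ => Nat.zero_le _)
    (Finset.mem_univ l₀)
  have h8 : ∑ l, c l = Nat.card N * (a * Nat.card H) := by exact_mod_cast htot
  have h9 : c l₀ = b * (Nat.card N * Nat.card H) := by exact_mod_cast htriv
  rw [h8, h9] at h7
  have h10 : 0 < Nat.card N * Nat.card H := Nat.mul_pos Nat.card_pos Nat.card_pos
  have h11 : b * (Nat.card N * Nat.card H) ≤ a * (Nat.card N * Nat.card H) := by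
    calc _ ≤ _ := h7
      _ = _ := by ring
  exact Nat.le_of_mul_le_mul_right h11 h10

end main

end Pool.Agent.H302R6
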