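import Mathlib
import Pool.Agent.H302R6.DedA

/-!
# Solvable layers: constancy on cosets
-/

set_option autoImplicit false
set_option linter.unusedSectionVars false

namespace Pool.Agent.H302R6

open Pool.Agent.H302R2

universe u

section chain

variable {G : Type u} [Group G]

/-- the derived series of a subgroup, as subgroups of the ambient group -/
def dser (N : Subgroup G) : ℕ → Subgroup G
  | 0 => N
  | i + 1 => ⁅dser N i, dser N i⁆

lemma dser_eq (N : Subgroup G) (i : ℕ) : dser N i = (derivedSeries N i).map N.subtype := by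
  induction i with
  | zero =>
    rw [derivedSeries_zero, ← MonoidHom.range_eq_map, Subgroup.range_subtype]; rfl
  | succ i ih =>
    rw [derivedSeries_succ, Subgroup.map_commutator, ← ih]; rfl

lemma dser_normal (N : Subgroup G) [hN : N.Normal] (i : ℕ) : (dser N i).Normal := by
  induction i with
  | zero => exact hN
  | succ i ih => exact Subgroup.commutator_normal _ _

lemma dser_bot {N : Subgroup G} (h : Group.IsSolvable N) : ∃ k, dser N k = ⊥ := by
  obtain ⟨k, hk⟩ := h.solvable
  exact ⟨k, by rw [dser_eq, hk, Subgroup.map_bot]⟩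

lemma dser_comm (N : Subgroup G) (i : ℕ) (a : G) (ha : a ∈ dser N i) (b : G)
    (hb : b ∈ dser N i) : a * b * a⁻¹ * b⁻¹ ∈ dser N (i + 1) :=
  Subgroup.commutator_mem_commutator ha hb

lemma dser_succ_le (N : Subgroup G) [N.Normal] (i : ℕ) : dser N (i + 1) ≤ dser N i := by
  have := dser_normal N i
  exact Subgroup.commutator_le_left _ _

end chain

section main

variable {G : Type u} [Group G] [Finite G] {θ : G → ℂ}

/-- Fourier inversion: a function on a finite commutative group with zero Fourier coefficients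
vanishes. -/
lemma zero_of_coeff {A : Type*} [Group A] [Finite A] (hc : ∀ a b : A, a * b = b * a)
    (f : A → ℂ) (h : ∀ χ : A →* ℂˣ, ∑ᶠ a, f a * (((χ a)⁻¹ : ℂˣ) : ℂ) = 0) (a : A) : f a = 0 := by
  classical
  have : Fintype A := Fintype.ofFinite _
  obtain ⟨L, _, χ, l₀, -, -, horth⟩ := exists_dual hc
  have h1 : ∑ l, ∑ b : A, f b * (((χ l (b * a⁻¹))⁻¹ : ℂˣ) : ℂ) = (Nat.card A : ℂ) * f a := by
    rw [Finset.sum_comm]
    have h2 : ∀ b : A, ∑ l, f b * (((χ l (b * a⁻¹))⁻¹ : ℂˣ) : ℂ)
        = if b = a then (Nat.card A : ℂ) * f a else 0 := by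
      intro b
      rw [← Finset.mul_sum, horth]
      by_cases hb : b = a
      · subst hb
        rw [if_pos (mul_inv_cancel b), if_pos rfl, mul_comm]
      · rw [if_neg (fun h => hb (mul_inv_eq_one.mp h)), if_neg hb, mul_zero]
    rw [Finset.sum_congr rfl (fun b _ => h2 b), Finset.sum_ite_eq' Finset.univ a]
    simp
  have h3 : ∀ l, ∑ b : A, f b * (((χ l (b * a⁻¹))⁻¹ : ℂˣ) : ℂ) = 0 := by
    intro l
    have h4 := h (χ l)
    rw [finsum_eq_sum_of_fintype] at h4
    have h5 : ∑ b : A, f b * (((χ l (b * a⁻¹))⁻¹ : ℂˣ) : ℂ)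
        = (∑ b : A, f b * (((χ l b)⁻¹ : ℂˣ) : ℂ)) * ((χ l a : ℂˣ) : ℂ) := by
      rw [Finset.sum_mul]
      refine Finset.sum_congr rfl fun b _ => ?_
      rw [map_mul, map_inv, mul_inv, inv_inv, Units.val_mul, mul_assoc]
    rw [h5, h4, zero_mul]
  rw [Finset.sum_congr rfl (fun l _ => h3 l), Finset.sum_const_zero] at h1
  have h6 : (Nat.card A : ℂ) ≠ 0 := by exact_mod_cast Nat.card_pos.ne'
  rcases mul_eq_zero.mp h1.symm with h7 | h7
  · exact absurd h7 h6
  · exact h7

/-- the isotypic sums vanish -/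
lemma isotypic_zero (hθ : IsHeilbronn θ) (N : Subgroup G) [N.Normal] [Fintype N] (l : N →* ℂˣ)
    (h0 : ∑ n : N, θ n * (((l n)⁻¹ : ℂˣ) : ℂ) = 0) (x : G) :
    ∑ n : N, θ (n * x) * (((l n)⁻¹ : ℂˣ) : ℂ) = 0 := by
  classical
  by_cases hinv : ∀ m : N, l (MulAut.conjNormal x m) = l m
  swap
  · push Not at hinv
    obtain ⟨m, hm⟩ := hinv
    exact inner_zero hθ.conj N l x hm
  set K := Subgroup.zpowers x with hK
  have : Fintype K := Fintype.ofFinite _
  have hinvK : ∀ (k : K) (n : N), l (cj N K k n) = l n := by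
    rintro ⟨_, i, rfl⟩ n
    let S : Subgroup G :=
      { carrier := {h | ∀ n : N, l (MulAut.conjNormal h n) = l n}
        mul_mem' := by
          intro a b ha hb n
          rw [map_mul, MulAut.mul_apply, ha, hb]
        one_mem' := fun n => by rw [map_one, MulAut.one_apply]
        inv_mem' := by
          intro a ha n
          rw [← ha (MulAut.conjNormal a⁻¹ n), ← MulAut.mul_apply, ← map_mul, mul_inv_cancel,
            map_one, MulAut.one_apply] }
    have hx : x ∈ S := hinv
    exact (zpow_mem hx i : x ^ i ∈ S) n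
  have : Finite (N ⋊[cj N K] K) :=
    Finite.of_equiv _ (SemidirectProduct.equivProd (N := N) (G := K) (φ := cj N K)).symm
  have : Fintype (N ⋊[cj N K] K) := Fintype.ofFinite _
  set f : K → ℂ := fun k => ∑ n : N, θ (n * k) * (((l n)⁻¹ : ℂˣ) : ℂ) with hf
  have hcK : ∀ a b : K, a * b = b * a := zpowers_comm x
  have hcoef : ∀ ρ : K →* ℂˣ, ∃ c : ℕ, ∑ k : K, f k * (((ρ k)⁻¹ : ℂˣ) : ℂ) = c := by
    intro ρ
    obtain ⟨c, hc⟩ := hθ.mult_hom (smap N K)
      (schar N K l hinvK * ρ.comp SemidirectProduct.rightHom)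
    refine ⟨c * Nat.card (N ⋊[cj N K] K), ?_⟩
    rw [Nat.cast_mul, ← hc, sum_semi]
    refine Finset.sum_congr rfl fun k _ => ?_
    rw [hf]
    simp only
    rw [Finset.sum_mul]
    refine Finset.sum_congr rfl fun n _ => ?_
    have e1 : smap N K ⟨n, k⟩ = n * k := rfl
    have e2 : (schar N K l hinvK * ρ.comp SemidirectProduct.rightHom :
      N ⋊[cj N K] K →* ℂˣ) ⟨n, k⟩ = l n * ρ k := rfl
    rw [e1, e2, mul_inv, Units.val_mul, mul_assoc]
  have hcoef0 : ∀ ρ : K →* ℂˣ, ∑ᶠ k : K, f k * (((ρ k)⁻¹ : ℂˣ) : ℂ) = 0 := by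
    obtain ⟨L, _, χ, l₀, -, -, horth⟩ := exists_dual hcK
    choose c hc using hcoef
    -- all coefficients twisted by ρ have sum zero
    intro ρ
    have htot : ∑ l', (c (ρ * χ l') : ℂ) = 0 := by
      rw [Finset.sum_congr rfl (fun l' _ => (hc (ρ * χ l')).symm), Finset.sum_comm]
      have h2 : ∀ k : K, ∑ l', f k * ((((ρ * χ l') k)⁻¹ : ℂˣ) : ℂ)
          = if k = 1 then (Nat.card K : ℂ) * f 1 else 0 := by
        intro k
        have h3 : ∀ l', f k * ((((ρ * χ l') k)⁻¹ : ℂˣ) : ℂ)
            = (f k * (((ρ k)⁻¹ : ℂˣ) : ℂ)) * (((χ l' k)⁻¹ : ℂˣ) : ℂ) := by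
          intro l'
          rw [MonoidHom.mul_apply, mul_inv, Units.val_mul, mul_assoc]
        rw [Finset.sum_congr rfl (fun l' _ => h3 l'), ← Finset.mul_sum, horth]
        by_cases hk : k = 1
        · subst hk
          rw [if_pos rfl, if_pos rfl, map_one, inv_one, Units.val_one, mul_one, mul_comm]
        · rw [if_neg hk, if_neg hk, mul_zero]
      rw [Finset.sum_congr rfl (fun k _ => h2 k), Finset.sum_ite_eq' Finset.univ (1 : K)]
      have h4 : f 1 = 0 := by
        rw [hf]
        simp only [OneMemClass.coe_one, mul_one]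
        exact h0
      simp [h4]
    have hz : ∀ l', c (ρ * χ l') = 0 := by
      have : ∑ l', c (ρ * χ l') = 0 := by exact_mod_cast htot
      intro l'
      exact (Finset.sum_eq_zero_iff.mp this) l' (Finset.mem_univ _)
    -- recover ρ itself
    have h5 : ∀ g : K → ℂ, (∀ l', ∑ k : K, g k * (((χ l' k)⁻¹ : ℂˣ) : ℂ) = 0) → ∀ a, g a = 0 := by
      intro g hg a
      have h1 : ∑ l', ∑ b : K, g b * (((χ l' (b * a⁻¹))⁻¹ : ℂˣ) : ℂ) = (Nat.card K : ℂ) * g a := by
        rw [Finset.sum_comm]
        have h2 : ∀ b : K, ∑ l', g b * (((χ l' (b * a⁻¹))⁻¹ : ℂˣ) : ℂ)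
            = if b = a then (Nat.card K : ℂ) * g a else 0 := by
          intro b
          rw [← Finset.mul_sum, horth]
          by_cases hb : b = a
          · subst hb
            rw [if_pos (mul_inv_cancel b), if_pos rfl, mul_comm]
          · rw [if_neg (fun h => hb (mul_inv_eq_one.mp h)), if_neg hb, mul_zero]
        rw [Finset.sum_congr rfl (fun b _ => h2 b), Finset.sum_ite_eq' Finset.univ a]
        simp
      have h3 : ∀ l', ∑ b : K, g b * (((χ l' (b * a⁻¹))⁻¹ : ℂˣ) : ℂ) = 0 := by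
        intro l'
        have h5 : ∑ b : K, g b * (((χ l' (b * a⁻¹))⁻¹ : ℂˣ) : ℂ)
            = (∑ b : K, g b * (((χ l' b)⁻¹ : ℂˣ) : ℂ)) * ((χ l' a : ℂˣ) : ℂ) := by
          rw [Finset.sum_mul]
          refine Finset.sum_congr rfl fun b _ => ?_
          rw [map_mul, map_inv, mul_inv, inv_inv, Units.val_mul, mul_assoc]
        rw [h5, hg l', zero_mul]
      rw [Finset.sum_congr rfl (fun l' _ => h3 l'), Finset.sum_const_zero] at h1
      have h6 : (Nat.card K : ℂ) ≠ 0 := by exact_mod_cast Nat.card_pos.ne'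
      rcases mul_eq_zero.mp h1.symm with h7 | h7
      · exact absurd h7 h6
      · exact h7
    have h8 := h5 (fun k => f k * (((ρ k)⁻¹ : ℂˣ) : ℂ)) (fun l' => by
      have h9 := hc (ρ * χ l')
      rw [hz l', Nat.cast_zero] at h9
      rw [← h9]
      refine Finset.sum_congr rfl fun k _ => ?_
      rw [MonoidHom.mul_apply, mul_inv, Units.val_mul, mul_assoc])
    rw [finsum_eq_sum_of_fintype]
    exact Finset.sum_eq_zero fun k _ => h8 k
  have := zero_of_coeff hcK f hcoef0 ⟨x, Subgroup.mem_zpowers x⟩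
  exact this

/-- Constancy on the cosets of an abelian layer. -/
lemma const_abel (hθ : IsHeilbronn θ) (M N : Subgroup G) [M.Normal] [N.Normal] (hMN : M ≤ N)
    (hc : ∀ a ∈ N, ∀ b ∈ N, a * b * a⁻¹ * b⁻¹ ∈ M)
    (hM : ∀ m ∈ M, ∀ x : G, θ (m * x) = θ x) (hN : ∀ n ∈ N, θ n = θ 1) :
    ∀ n ∈ N, ∀ x : G, θ (n * x) = θ x := by
  classical
  have : Fintype G := Fintype.ofFinite _
  have : Fintype N := Fintype.ofFinite _
  set M' := M.subgroupOf N with hM'
  have hcA : ∀ x y : N ⧸ M', x * y = y * x := by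
    intro x y
    induction x using QuotientGroup.induction_on with | _ x => ?_
    induction y using QuotientGroup.induction_on with | _ y => ?_
    rw [← QuotientGroup.mk_mul, ← QuotientGroup.mk_mul, ← mul_inv_eq_one, ← QuotientGroup.mk_inv,
      ← QuotientGroup.mk_mul, QuotientGroup.eq_one_iff, hM', Subgroup.mem_subgroupOf]
    have := hc x x.2 y y.2
    have e : ((x * y * (y * x)⁻¹ : N) : G) = x * y * (x : G)⁻¹ * (y : G)⁻¹ := by
      simp only [Subgroup.coe_mul, Subgroup.coe_inv, mul_inv_rev]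
      group
    rw [e]; exact this
  obtain ⟨L, _, χ, l₀, hl₀, hinj, horth⟩ := exists_dual hcA
  let lam : L → N →* ℂˣ := fun l => (χ l).comp (QuotientGroup.mk' M')
  have hNc : (Nat.card N : ℂ) ≠ 0 := by exact_mod_cast Nat.card_pos.ne'
  -- the average formula
  have key : ∀ x : G, (Nat.card N : ℂ) * θ x = ∑ n : N, θ (n * x) := by
    intro x
    have h1 : ∑ l, ∑ n : N, θ (n * x) * (((lam l n)⁻¹ : ℂˣ) : ℂ) = (Nat.card N : ℂ) * θ x := by
      rw [Finset.sum_comm]
      have h2 : ∀ n : N, ∑ l, θ (n * x) * (((lam l n)⁻¹ : ℂˣ) : ℂ)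
          = if (n : N ⧸ M') = 1 then (Nat.card (N ⧸ M') : ℂ) * θ x else 0 := by
        intro n
        rw [← Finset.mul_sum]
        have h3 : ∑ l, (((lam l n)⁻¹ : ℂˣ) : ℂ)
            = if (n : N ⧸ M') = 1 then (Nat.card (N ⧸ M') : ℂ) else 0 := horth _
        rw [h3]
        by_cases hn : (n : N ⧸ M') = 1
        · rw [if_pos hn, if_pos hn]
          have hnM : (n : G) ∈ M := by
            rw [QuotientGroup.eq_one_iff, hM', Subgroup.mem_subgroupOf] at hn
            exact hn
          rw [hM _ hnM, mul_comm]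
        · rw [if_neg hn, if_neg hn, mul_zero]
      rw [Finset.sum_congr rfl (fun n _ => h2 n), ← Finset.sum_filter, Finset.sum_const,
        nsmul_eq_mul, ← mul_assoc]
      congr 1
      have h4 : (Finset.univ.filter fun n : N => (n : N ⧸ M') = 1).card = Nat.card M' := by
        rw [← Fintype.card_subtype, ← Nat.card_eq_fintype_card]
        exact Nat.card_congr (Equiv.subtypeEquivRight fun n => QuotientGroup.eq_one_iff n)
      rw [h4, ← Nat.cast_mul, Subgroup.card_eq_card_quotient_mul_card_subgroup M', mul_comm]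
    rw [← h1]
    rw [Finset.sum_eq_single l₀]
    · refine Finset.sum_congr rfl fun n _ => ?_
      simp [lam, hl₀]
    · intro l _ hl
      apply isotypic_zero hθ N (lam l) ?_ x
      -- lam l is nontrivial
      have h5 : ∀ n : N, θ n * (((lam l n)⁻¹ : ℂˣ) : ℂ) = θ 1 * (((lam l n)⁻¹ : ℂˣ) : ℂ) :=
        fun n => by rw [hN n n.2]
      rw [Finset.sum_congr rfl (fun n _ => h5 n), ← Finset.mul_sum]
      have h6 : ∃ m : N, lam l m ≠ 1 := by
        by_contra hcon
        push Not at hcon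
        apply hl
        apply hinj
        refine MonoidHom.ext fun q => ?_
        induction q using QuotientGroup.induction_on with | _ q => ?_
        have := hcon q
        rw [MonoidHom.one_apply, ← this]
        rfl
      obtain ⟨m, hm⟩ := h6
      have h7 : ∑ n : N, (((lam l n)⁻¹ : ℂˣ) : ℂ)
          = (((lam l m)⁻¹ : ℂˣ) : ℂ) * ∑ n : N, (((lam l n)⁻¹ : ℂˣ) : ℂ) := by
        conv_lhs => rw [← Equiv.sum_comp (Equiv.mulRight m)]
        rw [Finset.mul_sum]
        refine Finset.sum_congr rfl fun n _ => ?_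
        rw [Equiv.coe_mulRight, map_mul, mul_inv, Units.val_mul, mul_comm]
      have h8 : (((lam l m)⁻¹ : ℂˣ) : ℂ) ≠ 1 := by
        intro h
        apply hm
        rw [← inv_eq_one]; exact Units.ext h
      have h9 : (1 - (((lam l m)⁻¹ : ℂˣ) : ℂ)) * ∑ n : N, (((lam l n)⁻¹ : ℂˣ) : ℂ) = 0 := by
        rw [sub_mul, one_mul, ← h7, sub_self]
      rcases mul_eq_zero.mp h9 with h10 | h10
      · exact absurd (sub_eq_zero.mp h10).symm h8
      · rw [h10, mul_zero]
    · intro h; exact absurd (Finset.mem_univ _) h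
  intro n hn x
  apply mul_left_cancel₀ hNc
  rw [key, key]
  rw [← Equiv.sum_comp (Equiv.mulRight (⟨n, hn⟩ : N)) (fun m : N => θ (m * x))]
  refine Finset.sum_congr rfl fun m _ => ?_
  simp only [Equiv.coe_mulRight, Subgroup.coe_mul, mul_assoc]

/-- Constancy on the cosets of a solvable normal subgroup in the kernel. -/
theorem const_sol (hθ : IsHeilbronn θ) (N : Subgroup G) [N.Normal] (hs : Group.IsSolvable N)
    (hN : ∀ n ∈ N, θ n = θ 1) : ∀ n ∈ N, ∀ x : G, θ (n * x) = θ x := by
  obtain ⟨k, hk⟩ := dser_bot hs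
  have hle : ∀ i, dser N i ≤ N := by
    intro i
    induction i with
    | zero => exact le_refl _
    | succ i ih => exact (dser_succ_le N i).trans ih
  have key : ∀ j i, i + j = k → ∀ n ∈ dser N i, ∀ x : G, θ (n * x) = θ x := by
    intro j
    induction j with
    | zero =>
      intro i hi n hn x
      rw [add_zero] at hi
      rw [hi, hk, Subgroup.mem_bot] at hn
      rw [hn, one_mul]
    | succ j ih =>
      intro i hi
      have := dser_normal N i
      have := dser_normal N (i + 1)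
      exact const_abel hθ (dser N (i + 1)) (dser N i) (dser_succ_le N i)
        (fun a ha b hb => dser_comm N i a ha b hb) (ih (i + 1) (by omega))
        (fun n hn => hN n (hle i hn))
  exact key k 0 (by omega)

/-- **Solvable layer.** -/
theorem ded_sol (hθ : IsHeilbronn θ) (N H : Subgroup G) [N.Normal] (hs : Group.IsSolvable N)
    {a b : ℕ} (ha : ∑ᶠ h : H, θ h = a * Nat.card H)
    (hb : ∑ᶠ h : (H ⊔ N : Subgroup G), θ h = b * Nat.card (H ⊔ N : Subgroup G)) : b ≤ a := by
  obtain ⟨k, hk⟩ := dser_bot hs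
  have hmult : ∀ U : Subgroup G, ∃ c : ℕ, ∑ᶠ h : U, θ h = c * Nat.card U := by
    intro U
    obtain ⟨c, hc⟩ := hθ.mult U 1
    refine ⟨c, ?_⟩
    rw [← hc]
    exact finsum_congr fun h => by simp
  have key : ∀ j i, i + j = k → ∀ b : ℕ, ∑ᶠ h : (H ⊔ dser N i : Subgroup G), θ h
      = b * Nat.card (H ⊔ dser N i : Subgroup G) → b ≤ a := by
    intro j
    induction j with
    | zero =>
      intro i hi b hb
      rw [add_zero] at hi
      rw [hi, hk, sup_bot_eq, ha] at hb
      have h1 : (Nat.card H : ℂ) ≠ 0 := by exact_mod_cast Nat.card_pos.ne'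
      have h2 := mul_right_cancel₀ h1 hb
      exact le_of_eq (by exact_mod_cast h2.symm)
    | succ j ih =>
      intro i hi b hb
      have := dser_normal N i
      have := dser_normal N (i + 1)
      obtain ⟨c, hc⟩ := hmult (H ⊔ dser N (i + 1))
      have h1 := ih (i + 1) (by omega) c hc
      have h2 : (H ⊔ dser N (i + 1)) ⊔ dser N i = H ⊔ dser N i := by
        rw [sup_assoc, sup_eq_right.mpr (dser_succ_le N i)]
      have h3 := ded_abel hθ (dser N (i + 1)) (dser N i) (H ⊔ dser N (i + 1))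
        (fun a ha b hb => dser_comm N i a ha b hb) le_sup_right hc (b := b) (by rw [h2]; exact hb)
      exact h3.trans h1
  exact key k 0 (by omega) b hb

end main

end Pool.Agent.H302R6
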