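import Pool.Agent.H302R6.Prod
import Pool.Agent.H302R6.AutB
import Pool.Agent.H302R6.DedA
import Pool.Agent.H302R2.SymFinal
import Pool.Agent.H302R2.DedekindTwo

/-!
# Layers which are products of simple groups
-/

set_option autoImplicit false
set_option linter.unusedSectionVars false

namespace Pool.Agent.H302R6

open Pool.Agent.H302R2 Pool.Agent.H302R5

universe u w v

/-- A nonabelian layer: the multiplicity of the trivial character does not change. -/
theorem layer_simple {G : Type u} [Group G] [Finite G] {θ : G → ℂ} (hθ : IsHeilbronn θ) {r : ℕ}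
    (hr : θ 1 = r) (M N H : Subgroup G) [M.Normal] [N.Normal] (hMH : M ≤ H)
    {ι : Type w} [Finite ι] {T : ι → Type v} [∀ i, Group (T i)] [∀ i, Finite (T i)]
    (e : (N ⧸ M.subgroupOf N) ≃* (∀ i, T i))
    (hsimp : ∀ i, IsSimpleGroup (T i))
    (hZ : ∀ i, ∀ t : T i, (∀ s : T i, s * t = t * s) → t = 1)
    (hOut : ∀ i, ∃ p : ℕ, p.Prime ∧
      ∀ β : MulAut (T i), ∃ (k : ℕ) (s : T i), β ^ (p ^ k) = MulAut.conj s)
    (hrig : ∀ i, ∀ η : T i → ℂ, IsHeilbronn η → ∀ r' : ℕ, r' ≤ r → η 1 = r' → ∀ t, η t = η 1)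
    {a b : ℕ} (ha : ∑ᶠ h : H, θ h = a * Nat.card H)
    (hb : ∑ᶠ h : (H ⊔ N : Subgroup G), θ h = b * Nat.card (H ⊔ N : Subgroup G)) : b = a := by
  classical
  have : Fintype G := Fintype.ofFinite _
  let π : G →* G ⧸ M := QuotientGroup.mk' M
  have hπ : Function.Surjective π := QuotientGroup.mk'_surjective M
  have hker : π.ker = M := QuotientGroup.ker_mk' M
  have hθ' := push_isHeilbronn hπ hθ
  obtain ⟨r', hr'r, hr'⟩ := push_one_nat_le hπ hθ hr
  let ψ : N ⧸ M.subgroupOf N →* G ⧸ M :=
    QuotientGroup.lift (M.subgroupOf N) (π.comp N.subtype) (by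
      intro x hx
      rw [Subgroup.mem_subgroupOf] at hx
      change π (x : G) = 1
      rw [← MonoidHom.mem_ker, hker]
      exact hx)
  have hψmk : ∀ x : N, ψ (QuotientGroup.mk x) = π (x : G) := fun x => rfl
  have hψ : Function.Injective ψ := by
    rw [injective_iff_map_eq_one]
    intro x hx
    induction x using QuotientGroup.induction_on with | _ x => ?_
    rw [hψmk, ← MonoidHom.mem_ker, hker] at hx
    rw [QuotientGroup.eq_one_iff, Subgroup.mem_subgroupOf]
    exact hx
  let φ : (∀ i, T i) →* G ⧸ M := ψ.comp e.symm.toMonoidHom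
  have hφ : Function.Injective φ := hψ.comp e.symm.injective
  have hrange : φ.range = N.map π := by
    ext y
    constructor
    · rintro ⟨x, rfl⟩
      obtain ⟨z, hz⟩ : ∃ z : N, QuotientGroup.mk z = e.symm x := by
        induction' e.symm x using QuotientGroup.induction_on with z
        exact ⟨z, rfl⟩
      refine ⟨z, z.2, ?_⟩
      change π (z : G) = ψ (e.symm x)
      rw [← hz, hψmk]
    · rintro ⟨z, hz, rfl⟩
      refine ⟨e (QuotientGroup.mk (⟨z, hz⟩ : N)), ?_⟩
      change ψ (e.symm (e _)) = _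
      rw [MulEquiv.symm_apply_apply, hψmk]
  have hNn : (N.map π).Normal := Subgroup.Normal.map inferInstance π hπ
  have hconst : ∀ x y, push π θ (x * φ y) = push π θ x := by
    intro x y
    refine prod_const hθ' φ hφ (by rw [hrange]; exact hNn) hsimp hZ hOut ?_ x y
    intro i t
    have h1 := hrig i (fun t => push π θ ((φ.comp (MonoidHom.mulSingle T i)) t))
      (hθ'.comp (φ.comp (MonoidHom.mulSingle T i))) r' hr'r (by simp [hr']) t
    simpa using h1
  have hc : ∀ n ∈ N.map π, ∀ x, push π θ (n * x) = push π θ x := by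
    intro n hn x
    have h1 : x⁻¹ * n * x ∈ N.map π := by
      have := hNn.conj_mem n hn x⁻¹
      rwa [inv_inv] at this
    rw [← hrange] at h1
    obtain ⟨y, hy⟩ := h1
    have h2 : n * x = x * φ y := by rw [hy]; group
    rw [h2]
    exact hconst x y
  have hcomap : ∀ U : Subgroup G, M ≤ U → (U.map π).comap π = U := by
    intro U hU
    exact Subgroup.comap_map_eq_self (by rw [hker]; exact hU)
  have hsup : (H.map π) ⊔ (N.map π) = (H ⊔ N : Subgroup G).map π := (Subgroup.map_sup H N π).symm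
  have hA : ∑ᶠ y : (H.map π : Subgroup (G ⧸ M)), push π θ y = a * Nat.card (H.map π) := by
    apply push_mult hπ
    rw [hcomap H hMH]
    exact ha
  have hB : ∑ᶠ y : ((H.map π) ⊔ (N.map π) : Subgroup (G ⧸ M)), push π θ y
      = b * Nat.card ((H.map π) ⊔ (N.map π) : Subgroup (G ⧸ M)) := by
    rw [hsup]
    apply push_mult hπ
    rw [hcomap _ (hMH.trans le_sup_left)]
    exact hb
  exact mult_sup_of_const (N.map π) (H.map π) hc hA hB

/-- Alternating layers. -/
theorem layer_alt {G : Type u} [Group G] [Finite G] {θ : G → ℂ} (hθ : IsHeilbronn θ) {r : ℕ}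
    (hr : θ 1 = r) (M N H : Subgroup G) [M.Normal] [N.Normal] (hMH : M ≤ H) {m : ℕ}
    (n k : Fin m → ℕ) (h7 : ∀ i, 7 ≤ n i) (hk : ∀ i, 2 ≤ k i)
    (hlt : ∀ i, r < (2 ^ k i - 1) * (n i / 2 ^ k i))
    (e : (N ⧸ M.subgroupOf N) ≃* (∀ i : Fin m, alternatingGroup (Fin (n i))))
    {a b : ℕ} (ha : ∑ᶠ h : H, θ h = a * Nat.card H)
    (hb : ∑ᶠ h : (H ⊔ N : Subgroup G), θ h = b * Nat.card (H ⊔ N : Subgroup G)) : b = a := by
  refine layer_simple hθ hr M N H hMH e ?_ ?_ ?_ ?_ ha hb
  · intro i
    exact alternatingGroup.isSimpleGroup (by rw [Nat.card_eq_fintype_card, Fintype.card_fin]; have := h7 i; omega)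
  · intro i t ht
    have h1 : t ∈ Subgroup.center (alternatingGroup (Fin (n i))) := by
      rw [Subgroup.mem_center_iff]
      exact ht
    rw [alternatingGroup.center_eq_bot (by rw [Nat.card_eq_fintype_card, Fintype.card_fin]; have := h7 i; omega)] at h1
    exact Subgroup.mem_bot.mp h1
  · intro i
    refine ⟨2, Nat.prime_two, fun β => out_alt ?_ β⟩
    rw [Fintype.card_fin]
    exact h7 i
  · intro i η hη r' hr'r hr' t
    exact alt_core (by have := h7 i; omega) (hk i) hη hr' (lt_of_le_of_lt hr'r (hlt i)) t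

end Pool.Agent.H302R6
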