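import Pool.Agent.H302R6.Layer

/-!
# The restriction inequality for groups with alternating nonabelian layers
-/

set_option autoImplicit false
set_option linter.unusedSectionVars false

namespace Pool.Agent.H302R6

open Pool.Agent.H302R2 Pool.Agent.H302R5

universe u

lemma seven_le {r n k : ℕ} (hr : 3 ≤ r) (hk : 2 ≤ k) (hlt : r < (2 ^ k - 1) * (n / 2 ^ k)) :
    7 ≤ n := by
  by_contra hcon
  push Not at hcon
  rcases Nat.lt_or_ge k 3 with h | h
  · have : k = 2 := by omega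
    subst this
    have : n / 2 ^ 2 ≤ 1 := by omega
    have h2 : (2 ^ 2 - 1) * (n / 2 ^ 2) ≤ 3 := by omega
    omega
  · have h1 : 2 ^ 3 ≤ 2 ^ k := Nat.pow_le_pow_right (by norm_num) h
    have : n / 2 ^ k = 0 := Nat.div_eq_of_lt (by omega)
    rw [this, mul_zero] at hlt
    omega

/-- The chain induction. -/
theorem chain_le {G : Type u} [Group G] [Finite G] {θ : G → ℂ} (hθ : IsHeilbronn θ) {r : ℕ}
    (hr : θ 1 = r) (hr3 : 3 ≤ r) (l : ℕ) (N : ℕ → Subgroup G) (h0 : N 0 = ⊥) (hl : N l = ⊤)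
    (hnorm : ∀ j ≤ l, (N j).Normal) (hle : ∀ j < l, N j ≤ N (j + 1))
    (hlayer : ∀ j < l, (∀ a ∈ N (j + 1), ∀ b ∈ N (j + 1), a * b * a⁻¹ * b⁻¹ ∈ N j) ∨
      ∃ (m : ℕ) (n k : Fin m → ℕ)
        (f : N (j + 1) →* (∀ i : Fin m, alternatingGroup (Fin (n i)))),
        (∀ i, 2 ≤ k i ∧ r < (2 ^ k i - 1) * (n i / 2 ^ k i)) ∧
        Function.Surjective f ∧ f.ker = (N j).subgroupOf (N (j + 1)))
    (H : Subgroup G) {a b : ℕ} (ha : ∑ᶠ g : G, θ g = a * Nat.card G)
    (hb : ∑ᶠ h : H, θ h = b * Nat.card H) : a ≤ b := by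
  classical
  have key : ∀ j ≤ l, ∀ c : ℕ, ∑ᶠ h : (H ⊔ N j : Subgroup G), θ h
      = c * Nat.card (H ⊔ N j : Subgroup G) → c ≤ b := by
    intro j
    induction j with
    | zero =>
      intro _ c hc
      rw [h0, sup_bot_eq, hb] at hc
      have hH : (Nat.card H : ℂ) ≠ 0 := by exact_mod_cast Nat.card_pos.ne'
      have := mul_right_cancel₀ hH hc
      have h1 : b = c := by exact_mod_cast this
      exact h1.ge
    | succ j ih =>
      intro hj c hc
      have hjl : j < l := hj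
      obtain ⟨c', hc'⟩ := hθ.mult (H ⊔ N j) 1
      simp only [MonoidHom.one_apply, inv_one, Units.val_one, mul_one] at hc'
      have h1 := ih hjl.le c' hc'
      have hM : (N j).Normal := hnorm j hjl.le
      have hN : (N (j + 1)).Normal := hnorm (j + 1) hj
      have hsup : (H ⊔ N j) ⊔ N (j + 1) = H ⊔ N (j + 1) := by
        rw [sup_assoc, sup_eq_right.mpr (hle j hjl)]
      rw [← hsup] at hc
      refine le_trans ?_ h1
      rcases hlayer j hjl with hab | ⟨m, n, k, f, hnk, hf, hfk⟩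
      · exact ded_abel hθ (N j) (N (j + 1)) (H ⊔ N j) hab le_sup_right hc' hc
      · have e0 : (N (j + 1) ⧸ f.ker) ≃* (∀ i : Fin m, alternatingGroup (Fin (n i))) :=
          QuotientGroup.quotientKerEquivOfSurjective f hf
        have e1 : (N (j + 1) ⧸ (N j).subgroupOf (N (j + 1))) ≃* (N (j + 1) ⧸ f.ker) :=
          QuotientGroup.quotientMulEquivOfEq hfk.symm
        exact (layer_alt hθ hr (N j) (N (j + 1)) (H ⊔ N j) le_sup_right n k
          (fun i => seven_le hr3 (hnk i).1 (hnk i).2) (fun i => (hnk i).1) (fun i => (hnk i).2)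
          (e1.trans e0) hc' hc).le
  apply key l le_rfl
  rw [hl, sup_top_eq]
  rw [Nat.card_congr Subgroup.topEquiv.toEquiv, ← ha]
  exact finsum_eq_of_bijective (fun g : (⊤ : Subgroup G) => (g : G))
    Subgroup.topEquiv.bijective (fun g => rfl)

/-- The restriction inequality. -/
theorem dedekind_alt (G : Type u) [Group G] [Finite G] (θ : G → ℂ) (hθ : IsHeilbronn θ) (r : ℕ)
    (hr : θ 1 = r) (l : ℕ) (N : ℕ → Subgroup G) (h0 : N 0 = ⊥) (hl : N l = ⊤)
    (hnorm : ∀ j ≤ l, (N j).Normal) (hle : ∀ j < l, N j ≤ N (j + 1))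
    (hlayer : ∀ j < l, (∀ a ∈ N (j + 1), ∀ b ∈ N (j + 1), a * b * a⁻¹ * b⁻¹ ∈ N j) ∨
      ∃ (m : ℕ) (n k : Fin m → ℕ)
        (f : N (j + 1) →* (∀ i : Fin m, alternatingGroup (Fin (n i)))),
        (∀ i, 2 ≤ k i ∧ r < (2 ^ k i - 1) * (n i / 2 ^ k i)) ∧
        Function.Surjective f ∧ f.ker = (N j).subgroupOf (N (j + 1)))
    (H : Subgroup G) (χ : G →* ℂˣ) (a b : ℕ)
    (ha : ∑ᶠ g : G, θ g * (((χ g)⁻¹ : ℂˣ) : ℂ) = a * Nat.card G)
    (hb : ∑ᶠ h : H, θ h * (((χ h)⁻¹ : ℂˣ) : ℂ) = b * Nat.card H) : a ≤ b := by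
  rcases Nat.lt_or_ge r 3 with h | h
  · apply hθ.mult_le _ H χ a b ha hb
    rw [hr, Complex.natCast_re]
    exact_mod_cast Nat.lt_succ_iff.mp h
  · exact chain_le (hθ.twist χ) (by simp [hr]) h l N h0 hl hnorm hle hlayer H ha hb

end Pool.Agent.H302R6
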