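import Mathlib
import Pool.Agent.H302R5.Weak2

/-!
# Functions on a centreless group invariant under twisted moves
-/

set_option autoImplicit false
set_option linter.unusedSectionVars false

namespace Pool.Agent.H302R6

open Pool.Agent.H302R5

universe u

lemma isPGroup_zpowers {G : Type*} [Group G] {p : ℕ} {x : G} {j : ℕ} (hx : x ^ (p ^ j) = 1) :
    IsPGroup p (Subgroup.zpowers x) := by
  rintro ⟨_, i, rfl⟩
  refine ⟨j, Subtype.ext ?_⟩
  change (x ^ i) ^ (p ^ j) = 1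
  rw [← zpow_natCast, ← zpow_mul, mul_comm, zpow_mul, zpow_natCast, hx, one_zpow]

/-- a universal exponent: `u ≡ 1` modulo `p ^ K` and `x ^ u` is a `p`-element for all `x` -/
lemma exists_exponent (A : Type*) [Group A] [Finite A] {p : ℕ} (hp : p.Prime) (k : ℕ) :
    ∃ (K : ℕ) (u c : ℤ), k ≤ K ∧ u = 1 + c * ((p ^ K : ℕ) : ℤ) ∧
      ∀ x : A, (x ^ u) ^ (p ^ K) = 1 := by
  obtain ⟨a, m, hm, ham⟩ := Nat.exists_eq_pow_mul_and_not_dvd (n := Nat.card A)
    Nat.card_pos.ne' p hp.ne_one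
  have hcop : Nat.Coprime (p ^ (k + a)) m :=
    Nat.Coprime.pow_left _ ((Nat.Prime.coprime_iff_not_dvd hp).mpr hm)
  obtain ⟨v, w, hvw⟩ := Nat.isCoprime_iff_coprime.mpr hcop
  refine ⟨k + a, w * m, -v, by omega, by linarith, fun x => ?_⟩
  rw [← zpow_natCast, ← zpow_mul]
  have h1 : w * (m : ℤ) * ((p ^ (k + a) : ℕ) : ℤ)
      = ((Nat.card A : ℕ) : ℤ) * (w * ((p ^ k : ℕ) : ℤ)) := by
    rw [ham]; push_cast; ring
  rw [h1, zpow_mul, zpow_natCast, pow_card_eq_one', one_zpow]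

section twist

variable {T : Type u} [Group T] [Finite T]

theorem twisted_const (hZ : ∀ t : T, (∀ s : T, s * t = t * s) → t = 1) (β : MulAut T) {p k : ℕ}
    (hp : p.Prime) (s : T) (hβ : β ^ (p ^ k) = MulAut.conj s) (F : T → ℂ)
    (M1 : ∀ (v : T) (D : Subgroup T), Group.IsSolvable D → (∀ d ∈ D, β (v * d * v⁻¹) ∈ D) →
      ∀ d ∈ D, F (v * d) = F v)
    (M2 : ∀ v w : T, F (β⁻¹ w * v * w⁻¹) = F v) (t : T) : F t = F 1 := by
  classical
  have : Fact p.Prime := ⟨hp⟩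
  have : Finite (MulAut T) := inferInstance
  set inn : T →* MulAut T := MulAut.conj with hinn
  have hinj : Function.Injective inn := by
    rw [injective_iff_map_eq_one]
    intro a ha
    apply hZ
    intro b
    have h1 : inn a b = b := by rw [ha]; rfl
    rw [hinn, MulAut.conj_apply] at h1
    rw [mul_inv_eq_iff_eq_mul] at h1
    exact h1.symm
  have hconj : ∀ (b : MulAut T) (d : T), b * inn d * b⁻¹ = inn (b d) := by
    intro b d
    ext y
    simp only [hinn, MulAut.mul_apply, MulAut.conj_apply, map_mul, map_inv]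
    simp
  have hnorm : (inn.range).Normal := by
    constructor
    rintro _ ⟨d, rfl⟩ b
    exact ⟨b d, (hconj b d).symm⟩
  set B : T → MulAut T := fun v => β * inn v with hB
  obtain ⟨K, u, c, hkK, hu, hpow⟩ := exists_exponent (MulAut T) hp k
  -- the p-part is reached by a move
  have hstep : ∀ v : T, ∃ v' : T, F v' = F v ∧ B v' = B v ^ u := by
    intro v
    have h1 : (B v) ^ (p ^ K) ∈ inn.range := by
      rw [← QuotientGroup.eq_one_iff, QuotientGroup.mk_pow]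
      have h2 : ((B v : MulAut T) : MulAut T ⧸ inn.range) = (β : MulAut T ⧸ inn.range) := by
        rw [QuotientGroup.eq]
        refine ⟨v⁻¹, ?_⟩
        simp only [hB, map_inv, mul_inv_rev, inv_mul_cancel_right]
      rw [h2, ← QuotientGroup.mk_pow, QuotientGroup.eq_one_iff]
      obtain ⟨j, hj⟩ := Nat.exists_eq_add_of_le hkK
      rw [hj, pow_add, pow_mul, hβ]
      exact ⟨s ^ (p ^ j), by rw [map_pow]⟩
    have h2 : (B v) ^ (u - 1) ∈ inn.range := by
      have : u - 1 = ((p ^ K : ℕ) : ℤ) * c := by rw [hu]; ring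
      rw [this, zpow_mul, zpow_natCast]
      exact zpow_mem h1 c
    obtain ⟨d, hd⟩ := h2
    have h3 : (B v) d = d := by
      apply hinj
      rw [← hconj, hd, ← zpow_one_add, ← zpow_neg_one, ← zpow_add]
      congr 1; ring
    refine ⟨v * d, ?_, ?_⟩
    · apply M1 v (Subgroup.zpowers d)
      · exact Pool.Agent.H302R3.sol_of_comm (Pool.Agent.H302R2.zpowers_comm d)
      · rintro _ ⟨i, rfl⟩
        have h4 : β (v * (d ^ i) * v⁻¹) = (B v) (d ^ i) := rfl
        simp only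
        rw [h4, map_zpow, h3]
        exact ⟨i, rfl⟩
      · exact Subgroup.mem_zpowers d
    · have : B (v * d) = B v * inn d := by simp only [hB, map_mul, mul_assoc]
      rw [this, hd, ← zpow_one_add]
      congr 1; ring
  obtain ⟨v₁, hF1, hB1⟩ := hstep 1
  obtain ⟨v₂, hF2, hB2⟩ := hstep t
  -- the group generated by the inner automorphisms and the p-element
  set b₁ := B v₁ with hb1
  set G₁ : Subgroup (MulAut T) := inn.range ⊔ Subgroup.zpowers b₁ with hG1
  have hb1G : b₁ ∈ G₁ := (le_sup_right : _ ≤ G₁) (Subgroup.mem_zpowers b₁)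
  have hinnG : ∀ w, inn w ∈ G₁ := fun w => (le_sup_left : _ ≤ G₁) ⟨w, rfl⟩
  have hBG : ∀ v, B v ∈ G₁ := by
    intro v
    have : B v = b₁ * inn (v₁⁻¹ * v) := by
      simp only [hb1, hB, mul_assoc, ← map_mul, mul_inv_cancel_left]
    rw [this]
    exact mul_mem hb1G (hinnG _)
  have hpg : ∀ v : T, ∀ v' : T, B v = B v' ^ u →
      IsPGroup p (Subgroup.zpowers (⟨B v, hBG v⟩ : G₁)) := by
    intro v v' h
    apply isPGroup_zpowers (j := K)
    apply Subtype.ext
    rw [SubmonoidClass.coe_pow, OneMemClass.coe_one]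
    change (B v) ^ (p ^ K) = 1
    rw [h]; exact hpow _
  obtain ⟨P, hP⟩ := (hpg v₁ 1 hB1).exists_le_sylow
  obtain ⟨Q, hQ⟩ := (hpg v₂ t hB2).exists_le_sylow
  obtain ⟨c', hc'⟩ := MulAction.exists_smul_eq G₁ Q P
  have h1P : (⟨b₁, hb1G⟩ : G₁) ∈ P := hP (Subgroup.mem_zpowers _)
  have h2P : c' * (⟨B v₂, hBG v₂⟩ : G₁) * c'⁻¹ ∈ P := by
    rw [← hc']
    exact Subgroup.smul_mem_pointwise_smul _ (MulAut.conj c') (Q : Subgroup G₁)
      (hQ (Subgroup.mem_zpowers _))
  -- write c' = b₁ ^ i * inn w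
  obtain ⟨i, w, hiw⟩ : ∃ (i : ℤ) (w : T), (c' : MulAut T) = b₁ ^ i * inn w := by
    have h3 : (c' : MulAut T) ∈ ((Subgroup.zpowers b₁ ⊔ inn.range : Subgroup (MulAut T)) :
        Set (MulAut T)) := by
      rw [SetLike.mem_coe, sup_comm]; exact c'.2
    rw [Subgroup.mul_normal, Set.mem_mul] at h3
    obtain ⟨_, ⟨i, rfl⟩, _, ⟨w, rfl⟩, h⟩ := h3
    exact ⟨i, w, h.symm⟩
  set v₃ := β⁻¹ w * v₂ * w⁻¹ with hv3
  have hB3 : B v₃ = inn w * B v₂ * (inn w)⁻¹ := by
    have h4 : β * inn (β⁻¹ w) = inn w * β := by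
      have := hconj β (β⁻¹ w)
      rw [mul_inv_eq_iff_eq_mul] at this
      rw [this]
      congr 1
      simp
    simp only [hB, hv3, map_mul, map_inv, ← mul_assoc]
    have h5 : β * inn (β⁻¹ w) = inn w * β := h4
    rw [h5]
  have h3P : (⟨B v₃, hBG v₃⟩ : G₁) ∈ P := by
    have h6 : (⟨B v₃, hBG v₃⟩ : G₁) = ((⟨b₁, hb1G⟩ : G₁) ^ i)⁻¹ *
        (c' * (⟨B v₂, hBG v₂⟩ : G₁) * c'⁻¹) * (⟨b₁, hb1G⟩ : G₁) ^ i := by
      apply Subtype.ext
      simp only [Subgroup.coe_mul, Subgroup.coe_inv, SubgroupClass.coe_zpow, hiw, hB3,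
        mul_inv_rev]
      group
    rw [h6]
    exact mul_mem (mul_mem (inv_mem (zpow_mem h1P i)) h2P) (zpow_mem h1P i)
  -- the solvable subgroup
  let ι : T →* G₁ := inn.codRestrict G₁ hinnG
  have hιinj : Function.Injective ι := by
    intro a b hab
    exact hinj (congrArg Subtype.val hab)
  let D : Subgroup T := (P : Subgroup G₁).comap ι
  have hDp : IsPGroup p D := by
    apply IsPGroup.of_injective P.isPGroup' ((ι.comp D.subtype).codRestrict (P : Subgroup G₁)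
      (fun d => d.2))
    intro a b hab
    exact Subtype.ext (hιinj (congrArg Subtype.val hab))
  have hDs : Group.IsSolvable D := pgroup_sol hp hDp
  have hDn : ∀ d ∈ D, β (v₁ * d * v₁⁻¹) ∈ D := by
    intro d hd
    have h7 : β (v₁ * d * v₁⁻¹) = b₁ d := rfl
    rw [h7]
    change ι (b₁ d) ∈ (P : Subgroup G₁)
    have h8 : ι (b₁ d) = (⟨b₁, hb1G⟩ : G₁) * ι d * (⟨b₁, hb1G⟩ : G₁)⁻¹ :=
      Subtype.ext (hconj b₁ d).symm
    rw [h8]
    exact mul_mem (mul_mem h1P hd) (inv_mem h1P)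
  have hd3 : v₁⁻¹ * v₃ ∈ D := by
    change ι (v₁⁻¹ * v₃) ∈ (P : Subgroup G₁)
    have h9 : ι (v₁⁻¹ * v₃) = (⟨b₁, hb1G⟩ : G₁)⁻¹ * (⟨B v₃, hBG v₃⟩ : G₁) := by
      apply Subtype.ext
      change inn (v₁⁻¹ * v₃) = (β * inn v₁)⁻¹ * (β * inn v₃)
      rw [map_mul, map_inv]; group
    rw [h9]
    exact mul_mem (inv_mem h1P) h3P
  have hfin := M1 v₁ D hDs hDn _ hd3
  rw [mul_inv_cancel_left] at hfin
  rw [← hF2, ← M2 v₂ w, ← hF1, ← hfin]

end twist

end Pool.Agent.H302R6
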