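import Mathlib
import Pool.Agent.H302R6.Orbit
import Pool.Agent.H302R5.Push

/-!
# Constancy on the cosets of a product of simple groups, and the nonabelian layers
-/

set_option autoImplicit false
set_option linter.unusedSectionVars false

namespace Pool.Agent.H302R6

open Pool.Agent.H302R2 Pool.Agent.H302R5

universe u w v

section prod

variable {Q : Type u} [Group Q] [Finite Q] {θ : Q → ℂ}
variable {ι : Type w} [Finite ι] [DecidableEq ι] {T : ι → Type v} [∀ i, Group (T i)]
  [∀ i, Finite (T i)]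

lemma update_mul_single (y : ∀ i, T i) (j : ι) :
    y = Function.update y j 1 * Pi.mulSingle j (y j) := by
  funext i
  by_cases h : i = j
  · subst h; simp
  · rw [Pi.mul_apply, Function.update_of_ne h, Pi.mulSingle_eq_of_ne h, mul_one]

lemma update_comm_single (y : ∀ i, T i) (j : ι) :
    Function.update y j 1 * Pi.mulSingle j (y j)
      = Pi.mulSingle j (y j) * Function.update y j 1 := by
  funext i
  by_cases h : i = j
  · subst h; simp
  · simp only [Pi.mul_apply, Function.update_of_ne h, Pi.mulSingle_eq_of_ne h, mul_one, one_mul]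

/-- induction over the elements of a finite product -/
lemma pi_induct (P : (∀ i, T i) → Prop) (h1 : P 1)
    (hstep : ∀ (y : ∀ i, T i) (j : ι), P (Function.update y j 1) → P y) (y : ∀ i, T i) : P y := by
  have : Fintype ι := Fintype.ofFinite _
  have key : ∀ (s : Finset ι) (y : ∀ i, T i), (∀ i, i ∉ s → y i = 1) → P y := by
    intro s
    induction s using Finset.induction_on with
    | empty =>
      intro y hy
      have : y = 1 := funext fun i => hy i (by simp)
      rw [this]; exact h1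
    | insert j s hj ih =>
      intro y hy
      apply hstep y j
      apply ih
      intro i hi
      by_cases h : i = j
      · subst h; simp
      · rw [Function.update_of_ne h]
        exact hy i (by simp [h, hi])
  exact key Finset.univ y (fun i hi => absurd (Finset.mem_univ i) hi)

theorem prod_const (hθ : IsHeilbronn θ) (φ : (∀ i, T i) →* Q) (hφ : Function.Injective φ)
    (hN : φ.range.Normal) (hsimp : ∀ i, IsSimpleGroup (T i))
    (hZ : ∀ i, ∀ t : T i, (∀ s : T i, s * t = t * s) → t = 1)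
    (hOut : ∀ i, ∃ p : ℕ, p.Prime ∧
      ∀ β : MulAut (T i), ∃ (k : ℕ) (s : T i), β ^ (p ^ k) = MulAut.conj s)
    (hrig : ∀ i, ∀ t : T i, θ (φ (Pi.mulSingle i t)) = θ 1) (x : Q) (y : ∀ i, T i) :
    θ (x * φ y) = θ x := by
  set N := φ.range with hNdef
  have hN1 : ∀ n ∈ N, θ n = θ 1 := by
    rintro _ ⟨y, rfl⟩
    refine pi_induct (fun y => θ (φ y) = θ 1) (by simp) (fun y j hy => ?_) y
    rw [update_mul_single y j, map_mul, hθ.mul_of_comm _ (hrig j (y j))]
    · exact hy
    · rw [← map_mul, ← map_mul, update_comm_single]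
  have hone : ∀ (j : ι) (x : Q) (t : T j), θ (x * φ (Pi.mulSingle j t)) = θ x := by
    intro j x t
    let ψ : T j →* Q := φ.comp (MonoidHom.mulSingle T j)
    have hψ : Function.Injective ψ := hφ.comp (Pi.mulSingle_injective j)
    let T₀ : Subgroup Q := ψ.range
    let e : T j ≃* T₀ := MonoidHom.ofInjective hψ
    have he : ∀ t, ((e t : T₀) : Q) = φ (Pi.mulSingle j t) := fun t => rfl
    have hTN : T₀ ≤ N := by
      rintro _ ⟨t, rfl⟩
      exact ⟨_, rfl⟩
    have hTnorm : ∀ n ∈ N, ∀ t ∈ T₀, n * t * n⁻¹ ∈ T₀ := by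
      rintro _ ⟨y, rfl⟩ _ ⟨t, rfl⟩
      refine ⟨y j * t * (y j)⁻¹, ?_⟩
      change φ (Pi.mulSingle j (y j * t * (y j)⁻¹)) = φ y * φ (Pi.mulSingle j t) * (φ y)⁻¹
      rw [← map_inv, ← map_mul, ← map_mul]
      congr 1
      funext i
      by_cases h : i = j
      · subst h; simp
      · simp only [Pi.mul_apply, Pi.inv_apply, Pi.mulSingle_eq_of_ne h, mul_one, mul_inv_cancel]
    have hs : IsSimpleGroup T₀ := by
      have := hsimp j
      have : Nontrivial T₀ := e.symm.toEquiv.nontrivial
      exact IsSimpleGroup.isSimpleGroup_of_surjective e.toMonoidHom e.surjective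
    have hZ0 : ∀ t : T₀, (∀ s : T₀, s * t = t * s) → t = 1 := by
      intro t ht
      have h1 : e.symm t = 1 := by
        apply hZ j
        intro s
        have := congrArg e.symm (ht (e s))
        simpa using this
      rw [← e.apply_symm_apply t, h1, map_one]
    obtain ⟨p, hp, hOj⟩ := hOut j
    have hO : ∀ β : MulAut T₀, ∃ (k : ℕ) (s : T₀), β ^ (p ^ k) = MulAut.conj s := by
      intro β
      obtain ⟨k, s, hks⟩ := hOj ((MulAut.congr e).symm β)
      refine ⟨k, e s, ?_⟩
      have h1 := congrArg (MulAut.congr e) hks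
      rw [map_pow, MulEquiv.apply_symm_apply] at h1
      rw [h1]
      ext y
      change ((e (s * (e.symm y) * s⁻¹) : T₀) : Q) = ((e s * y * (e s)⁻¹ : T₀) : Q)
      rw [map_mul, map_mul, map_inv, MulEquiv.apply_symm_apply]
    exact orbit_const hθ N T₀ hTN hTnorm hZ0 hp hO hN1 x _ ⟨t, rfl⟩
  refine pi_induct (fun y => θ (x * φ y) = θ x) (by simp) (fun y j hy => ?_) y
  rw [update_mul_single y j, map_mul, ← mul_assoc, hone]
  exact hy

end prod

section layer

variable {G : Type u} [Group G] [Fintype G] {Y : Type u} [Group Y] [Finite Y]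

/-- Fibre averages of Heilbronn functions are Heilbronn functions. -/
lemma push_isHeilbronn {π : G →* Y} (hπ : Function.Surjective π) {θ : G → ℂ}
    (hθ : IsHeilbronn θ) : IsHeilbronn (push π θ) where
  conj y c := push_conj π hπ hθ.conj y c
  mult V χ := by
    let ρ : V.comap π →* V :=
      { toFun := fun u => ⟨π u, u.2⟩
        map_one' := Subtype.ext (map_one π)
        map_mul' := fun a b => Subtype.ext (map_mul π _ _) }
    obtain ⟨n, hn⟩ := hθ.mult (V.comap π) (χ.comp ρ)
    refine ⟨n, ?_⟩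
    have hk : (Nat.card π.ker : ℂ) ≠ 0 := by exact_mod_cast Nat.card_pos.ne'
    rw [sum_push π]
    refine Eq.trans (congrArg (fun z => (Nat.card π.ker : ℂ)⁻¹ * z) hn) ?_
    rw [card_comap hπ]
    push_cast
    field_simp

/-- multiplicities on preimages -/
lemma push_mult {π : G →* Y} (hπ : Function.Surjective π) {θ : G → ℂ} (V : Subgroup Y) {n : ℕ}
    (h : ∑ᶠ u : V.comap π, θ u = n * Nat.card (V.comap π)) :
    ∑ᶠ y : V, push π θ y = n * Nat.card V := by
  have hk : (Nat.card π.ker : ℂ) ≠ 0 := by exact_mod_cast Nat.card_pos.ne'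
  have h1 := sum_push π θ V 1
  simp only [MonoidHom.one_apply, inv_one, Units.val_one, mul_one] at h1
  rw [h1, h, card_comap hπ]
  push_cast
  field_simp

lemma push_one_nat_le {π : G →* Y} (hπ : Function.Surjective π) {θ : G → ℂ}
    (hθ : IsHeilbronn θ) {r : ℕ} (hr : θ 1 = r) : ∃ r' : ℕ, r' ≤ r ∧ push π θ 1 = r' := by
  obtain ⟨r', hr'⟩ := (push_isHeilbronn hπ hθ).exists_deg
  refine ⟨r', ?_, hr'⟩
  have h1 : ‖(push π θ) 1‖ ≤ (r : ℝ) := by
    refine norm_push_one_le π fun g => ?_
    have := hθ.norm_le g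
    rwa [hr, Complex.natCast_re] at this
  rw [hr', Complex.norm_natCast] at h1
  exact_mod_cast h1

/-- If `θ` is constant on the cosets of `N` then the multiplicity does not change from `H` to
`H ⊔ N`. -/
lemma mult_sup_of_const {Q : Type u} [Group Q] [Finite Q] {θ : Q → ℂ} (N H : Subgroup Q)
    [N.Normal] (hc : ∀ n ∈ N, ∀ x, θ (n * x) = θ x) {a b : ℕ}
    (ha : ∑ᶠ h : H, θ h = a * Nat.card H)
    (hb : ∑ᶠ h : (H ⊔ N : Subgroup Q), θ h = b * Nat.card (H ⊔ N : Subgroup Q)) : b = a := by
  classical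
  have : Fintype N := Fintype.ofFinite _
  have : Fintype H := Fintype.ofFinite _
  have h1 := sum_sup (θ := θ) N H
  rw [hb] at h1
  have h2 : (∑ᶠ h : H, ∑ᶠ n : N, θ (n * h) * (Nat.card (H ⊔ N : Subgroup Q) : ℂ))
      = (Nat.card N : ℂ) * (a * Nat.card H) * (Nat.card (H ⊔ N : Subgroup Q) : ℂ) := by
    rw [← ha, finsum_eq_sum_of_fintype, finsum_eq_sum_of_fintype, Finset.mul_sum, Finset.sum_mul]
    refine Finset.sum_congr rfl fun h _ => ?_
    rw [finsum_eq_sum_of_fintype]
    have h3 : ∀ n : N, θ (n * h) * (Nat.card (H ⊔ N : Subgroup Q) : ℂ)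
        = θ h * (Nat.card (H ⊔ N : Subgroup Q) : ℂ) := fun n => by rw [hc n n.2]
    rw [Finset.sum_congr rfl (fun n _ => h3 n), Finset.sum_const, Finset.card_univ, nsmul_eq_mul,
      Nat.card_eq_fintype_card (α := N), mul_assoc]
  rw [h2] at h1
  have hN : (Nat.card N : ℂ) ≠ 0 := by exact_mod_cast Nat.card_pos.ne'
  have hH : (Nat.card H : ℂ) ≠ 0 := by exact_mod_cast Nat.card_pos.ne'
  have hK : (Nat.card (H ⊔ N : Subgroup Q) : ℂ) ≠ 0 := by exact_mod_cast Nat.card_pos.ne'
  have h4 : ((Nat.card N : ℂ) * Nat.card H * (Nat.card (H ⊔ N : Subgroup Q) : ℂ)) * (b : ℂ)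
      = ((Nat.card N : ℂ) * Nat.card H * (Nat.card (H ⊔ N : Subgroup Q) : ℂ)) * (a : ℂ) := by
    linear_combination -h1
  have h5 := mul_left_cancel₀ (mul_ne_zero (mul_ne_zero hN hH) hK) h4
  exact_mod_cast h5

end layer

end Pool.Agent.H302R6
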